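import Pool.Agent.H362R2.RQ.TreeR

set_option autoImplicit false

/-! A tree of positions inside which every dense set of hits contains an isolated copy of one of
countably many prescribed shapes, at its exact size. -/

open Finset

namespace Pool.Agent.W199.ExTree

open Pool.Agent.H362R2.RQ (exists_sep)

/-- seen from `v`, up to the distance `R`, the set `P` looks like the set of the `V i`, up to `δ` -/
def LooksAt {k : ℕ} (V : Fin k → ℝ) (R δ : ℝ) (P : Set ℝ) (v : ℝ) : Prop :=
  (∀ p ∈ P, |p - v| ≤ R → ∃ i, |p - (v + V i)| ≤ δ) ∧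
  (∀ i, ∃ p ∈ P, |p - (v + V i)| ≤ δ)

theorem exists_inj {k : ℕ} (V : Fin k → ℝ) (δ : ℝ) (hδ : 0 < δ) :
    ∃ V' : Fin k → ℝ, Function.Injective V' ∧ ∀ i, |V' i - V i| ≤ δ := by
  classical
  set bad : Finset ℝ := (univ : Finset (Fin k × Fin k)).image
    (fun p => (V p.1 - V p.2) / ((p.2 : ℕ) - (p.1 : ℕ) : ℝ)) with hbad
  have hk : (0 : ℝ) < (k : ℝ) + 1 := by positivity
  have hpos : (0 : ℝ) < δ / (k + 1) := by positivity
  obtain ⟨t, ht, htb⟩ := (Set.Ioo_infinite hpos).exists_notMem_finset bad
  refine ⟨fun i => V i + t * (i : ℕ), ?_, ?_⟩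
  · intro i j hij
    by_contra hne
    apply htb
    rw [hbad, mem_image]
    refine ⟨(i, j), mem_univ _, ?_⟩
    simp only at hij ⊢
    have h1 : ((j : ℕ) - (i : ℕ) : ℝ) ≠ 0 := by
      rw [sub_ne_zero]
      intro h
      exact hne (Fin.ext (by exact_mod_cast h.symm))
    rw [div_eq_iff h1]
    linarith
  · intro i
    have h1 : ((i : ℕ) : ℝ) ≤ k + 1 := by
      have : ((i : ℕ) : ℝ) ≤ k := by exact_mod_cast i.2.le
      linarith
    have h2 : 0 ≤ t * (i : ℕ) := mul_nonneg ht.1.le (Nat.cast_nonneg _)
    have h3 : V i + t * (i : ℕ) - V i = t * (i : ℕ) := by ring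
    rw [h3, abs_of_nonneg h2]
    calc t * (i : ℕ) ≤ δ / (k + 1) * (k + 1) :=
          mul_le_mul ht.2.le h1 (Nat.cast_nonneg _) hpos.le
      _ = δ := by field_simp

open Classical in
theorem tree {k : ℕ} (V : ℝ → Fin k → ℝ) (ε : ℝ → ℝ) (hε : ∀ b, 0 < b → 0 < ε b)
    (hV : ∀ b, 0 < b → ∀ i, |V b i| ≤ b) :
    ∀ (r : ℕ) (B : ℝ), 0 < B → ∃ (ι : Type) (_ : Fintype ι) (S : Finset ℝ) (u : ι → ℝ) (τ : ℝ),
      Fintype.card ι = k ^ r ∧ 0 < τ ∧ (∀ b ∈ S, 0 < b ∧ b ≤ B) ∧ (∀ g, |u g| ≤ B) ∧
      Function.Injective u ∧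
      ∀ P : Set ℝ, (∀ p ∈ P, ∃ g, |p - u g| ≤ τ) →
        ∀ G : Finset ι, (∀ g ∈ G, ∃ p ∈ P, |p - u g| ≤ τ) → (k - 1) ^ r < G.card →
        ∃ b ∈ S, ∃ v : ℝ, |v| ≤ B ∧ LooksAt (V b) (2 * b) (ε b / 2) P v := by
  intro r
  induction r with
  | zero =>
    intro B hB
    refine ⟨Unit, inferInstance, ∅, fun _ => 0, 1, by simp, one_pos, by simp, by simp [hB.le],
      fun _ _ _ => Subsingleton.elim _ _, ?_⟩
    intro P _ G _ hcard
    exfalso
    have h1 : G.card ≤ 1 := by
      have := Finset.card_le_univ G
      simpa using this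
    simp only [pow_zero] at hcard
    omega
  | succ r ih =>
    intro B hB
    set b0 : ℝ := B / 4 with hb0
    have hb0pos : 0 < b0 := by positivity
    set e : ℝ := ε b0 with he
    have he0 : 0 < e := hε b0 hb0pos
    obtain ⟨V', hV'inj, hV'⟩ := exists_inj (V b0) (min (e / 8) b0) (by positivity)
    have hV'e : ∀ i, |V' i - V b0 i| ≤ e / 8 := fun i => (hV' i).trans (min_le_left _ _)
    have hV'B : ∀ i, |V' i| ≤ B / 2 := by
      intro i
      have h1 := (hV' i).trans (min_le_right _ _)
      have h2 := hV b0 hb0pos i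
      rw [abs_le] at h1 h2 ⊢
      constructor <;> linarith [h1.1, h1.2, h2.1, h2.2]
    obtain ⟨μ, hμ, hsep⟩ := exists_sep V' hV'inj
    obtain ⟨B', hB'def⟩ : ∃ B' : ℝ, B' = min (B / 4) (min (e / 8) (μ / 16)) := ⟨_, rfl⟩
    have hB'0 : 0 < B' := by rw [hB'def]; positivity
    have hB'B : B' ≤ B / 4 := by rw [hB'def]; exact min_le_left _ _
    have hB'e : B' ≤ e / 8 := by rw [hB'def]; exact (min_le_right _ _).trans (min_le_left _ _)
    have hB'μ : B' ≤ μ / 16 := by rw [hB'def]; exact (min_le_right _ _).trans (min_le_right _ _)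
    obtain ⟨ι, hι, S, u, τ', hcard, hτ', hS, huB, hinj, hprop⟩ := ih B' hB'0
    obtain ⟨τ, hτdef⟩ : ∃ τ : ℝ, τ = min τ' (min (e / 8) (μ / 16)) := ⟨_, rfl⟩
    have hτ0 : 0 < τ := by rw [hτdef]; positivity
    have hττ' : τ ≤ τ' := by rw [hτdef]; exact min_le_left _ _
    have hτe : τ ≤ e / 8 := by rw [hτdef]; exact (min_le_right _ _).trans (min_le_left _ _)
    have hτμ : τ ≤ μ / 16 := by rw [hτdef]; exact (min_le_right _ _).trans (min_le_right _ _)
    refine ⟨Fin k × ι, inferInstance, insert b0 S, fun y => V' y.1 + u y.2, τ, ?_, hτ0, ?_, ?_, ?_, ?_⟩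
    · rw [Fintype.card_prod, Fintype.card_fin, hcard, pow_succ, mul_comm]
    · intro b hb
      rw [mem_insert] at hb
      rcases hb with rfl | hb
      · exact ⟨hb0pos, by linarith⟩
      · exact ⟨(hS b hb).1, by linarith [(hS b hb).2]⟩
    · rintro ⟨i, g⟩
      simp only
      have h1 := abs_le.1 (hV'B i)
      have h2 := abs_le.1 (huB g)
      rw [abs_le]
      constructor <;> linarith [h1.1, h1.2, h2.1, h2.2]
    · rintro ⟨i, g⟩ ⟨i', g'⟩ h
      simp only at h
      by_cases hi : i = i'
      · subst hi
        have : u g = u g' := by linarith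
        rw [hinj this]
      · exfalso
        have h1 := hsep i i' hi
        have h2 := abs_le.1 (huB g)
        have h3 := abs_le.1 (huB g')
        have h4 : |V' i - V' i'| ≤ 2 * B' := by
          rw [abs_le]
          constructor <;> linarith [h2.1, h2.2, h3.1, h3.2]
        linarith
    · intro P hP G hG hGcard
      set Gi : Fin k → Finset ι := fun i => univ.filter (fun g => (i, g) ∈ G) with hGi
      have hsum : G.card = ∑ i, (Gi i).card := by
        have h1 : G.card = (univ.filter (fun y : Fin k × ι => y ∈ G)).card := by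
          congr 1
          ext y
          simp
        rw [h1, Finset.card_filter, Fintype.sum_prod_type]
        apply Finset.sum_congr rfl
        intro i _
        rw [hGi, Finset.card_filter]
      by_cases hA : ∃ i, (k - 1) ^ r < (Gi i).card
      · obtain ⟨i, hi⟩ := hA
        set Pi : Set ℝ := {p | p + V' i ∈ P ∧ |p| ≤ B' + τ} with hPi
        obtain ⟨b, hb, v, hvB, hL1, hL2⟩ := hprop Pi (by
          rintro p ⟨hp1, hp2⟩
          obtain ⟨⟨j, g⟩, hjg⟩ := hP _ hp1
          simp only at hjg
          by_cases hji : j = i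
          · subst hji
            refine ⟨g, ?_⟩
            have e1 : p + V' j - (V' j + u g) = p - u g := by ring
            rw [e1] at hjg
            exact hjg.trans hττ'
          · exfalso
            have h1 := hsep j i hji
            have h2 := abs_le.1 hjg
            have h3 := abs_le.1 hp2
            have h4 := abs_le.1 (huB g)
            have h5 : |V' j - V' i| ≤ 2 * B' + 2 * τ := by
              rw [abs_le]; constructor <;> linarith [h2.1, h2.2, h3.1, h3.2, h4.1, h4.2]
            linarith) (Gi i) (by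
          intro g hg
          rw [hGi, mem_filter] at hg
          obtain ⟨p, hp1, hp2⟩ := hG _ hg.2
          simp only at hp2
          have e1 : p - (V' i + u g) = p - V' i - u g := by ring
          rw [e1] at hp2
          refine ⟨p - V' i, ⟨?_, ?_⟩, hp2.trans hττ'⟩
          · rw [sub_add_cancel]; exact hp1
          · have h2 := abs_le.1 hp2
            have h4 := abs_le.1 (huB g)
            rw [abs_le]; constructor <;> linarith [h2.1, h2.2, h4.1, h4.2]) hi
        have hbB' := (hS b hb).2
        refine ⟨b, mem_insert_of_mem hb, v + V' i, ?_, ?_, ?_⟩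
        · have h1 := abs_le.1 (hV'B i)
          have h2 := abs_le.1 hvB
          rw [abs_le]
          constructor <;> linarith [h1.1, h1.2, h2.1, h2.2]
        · intro p hp hpv
          obtain ⟨⟨j, g⟩, hjg⟩ := hP _ hp
          simp only at hjg
          have h2 := abs_le.1 hjg
          have h3 := abs_le.1 hpv
          have h4 := abs_le.1 (huB g)
          have h6 := abs_le.1 hvB
          have hji : j = i := by
            by_contra hji
            have h1 := hsep j i hji
            have h5 : |V' j - V' i| ≤ 4 * B' + τ := by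
              rw [abs_le]; constructor <;> linarith [h2.1, h2.2, h3.1, h3.2, h4.1, h4.2, h6.1, h6.2]
            linarith
          subst hji
          obtain ⟨i', hi'⟩ := hL1 (p - V' j) ⟨by rw [sub_add_cancel]; exact hp, by
            rw [abs_le]; constructor <;> linarith [h2.1, h2.2, h4.1, h4.2]⟩ (by
            have e1 : p - V' j - v = p - (v + V' j) := by ring
            rw [e1]; exact hpv)
          refine ⟨i', ?_⟩
          have e1 : p - (v + V' j + V b i') = p - V' j - (v + V b i') := by ring
          rw [e1]; exact hi'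
        · intro i'
          obtain ⟨p, hp, hpi⟩ := hL2 i'
          refine ⟨p + V' i, hp.1, ?_⟩
          have e1 : p + V' i - (v + V' i + V b i') = p - (v + V b i') := by ring
          rw [e1]; exact hpi
      · push Not at hA
        have hall : ∀ i, 0 < (Gi i).card := by
          by_contra hcon
          push Not at hcon
          obtain ⟨i0, hi0⟩ := hcon
          have h1 : ∑ i, (Gi i).card ≤ (k - 1) ^ (r + 1) := by
            rw [← Finset.add_sum_erase _ _ (mem_univ i0)]
            have h2 : ∑ i ∈ univ.erase i0, (Gi i).card ≤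
                (univ.erase i0 : Finset (Fin k)).card * (k - 1) ^ r := by
              rw [← smul_eq_mul]
              exact Finset.sum_le_card_nsmul _ _ _ (fun i _ => hA i)
            rw [Finset.card_erase_of_mem (mem_univ i0), card_univ, Fintype.card_fin] at h2
            rw [pow_succ, mul_comm]
            omega
          omega
        refine ⟨b0, mem_insert_self _ _, 0, by rw [abs_zero]; exact hB.le, ?_, ?_⟩
        · intro p hp _
          obtain ⟨⟨j, g⟩, hjg⟩ := hP _ hp
          simp only at hjg
          refine ⟨j, ?_⟩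
          have h2 := abs_le.1 hjg
          have h4 := abs_le.1 (huB g)
          have h5 := abs_le.1 (hV'e j)
          rw [abs_le]
          constructor <;> linarith [h2.1, h2.2, h4.1, h4.2, h5.1, h5.2]
        · intro i
          obtain ⟨g, hg⟩ := Finset.card_pos.1 (hall i)
          rw [hGi, mem_filter] at hg
          obtain ⟨p, hp1, hp2⟩ := hG _ hg.2
          simp only at hp2
          refine ⟨p, hp1, ?_⟩
          have h2 := abs_le.1 hp2
          have h4 := abs_le.1 (huB g)
          have h5 := abs_le.1 (hV'e i)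
          rw [abs_le]
          constructor <;> linarith [h2.1, h2.2, h4.1, h4.2, h5.1, h5.2]

end Pool.Agent.W199.ExTree
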