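import Pool.Agent.H362R2.RQ.Fin
import Pool.Agent.H362R2.RQ.Shapes
import Pool.Agent.H672R3.InfRec
import Pool.Agent.W199.ExTree

set_option autoImplicit false

/-! Every small finite set is, at its exact size, the limit of the scaled primes near integers, at the
record scale. -/

open Finset Filter

namespace Pool.Agent.W199.ExMain

open Pool.Agent.H256R2.SC (ff)
open Pool.Agent.H312R2.RG.C3 (ff_tendsto ff_lower ff_small ff_upper)
open Pool.Agent.H362R2.RQ
open Pool.Agent.W199.ExTree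

/-- a common modulus and a common residue -/
theorem crt (a : ℕ → ℕ) (ha : ∀ l : ℕ, l.Prime → ¬ l ∣ a l) (M : ℕ) :
    ∃ Q A : ℕ, Squarefree Q ∧ A.Coprime Q ∧ ∀ p : ℕ, p ≡ A [MOD Q] → ∀ l : ℕ, l.Prime → l ≤ M →
      p ≡ a l [MOD l] := by
  set T : Finset ℕ := (range (M + 1)).filter Nat.Prime with hT
  have hTp : ∀ l ∈ T, l.Prime := fun l hl => (mem_filter.1 hl).2
  have hco : Set.Pairwise (T : Set ℕ) (Function.onFun Nat.Coprime (fun l : ℕ => l)) := by
    intro l hl l' hl' hne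
    exact (Nat.coprime_primes (hTp l hl) (hTp l' hl')).2 hne
  obtain ⟨A, hA⟩ := Nat.chineseRemainderOfFinset a (fun l => l) T (fun l hl => (hTp l hl).ne_zero) hco
  have hQ : primorial M = ∏ l ∈ T, l := rfl
  refine ⟨primorial M, A, squarefree_primorial M, ?_, ?_⟩
  · rw [hQ]
    refine Nat.Coprime.prod_right fun l hl => ?_
    rw [Nat.coprime_comm, (hTp l hl).coprime_iff_not_dvd]
    intro hd
    apply ha l (hTp l hl)
    exact (Nat.modEq_zero_iff_dvd).1 ((hA l hl).symm.trans ((Nat.modEq_zero_iff_dvd).2 hd))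
  · intro p hp l hl hlM
    have hlT : l ∈ T := by
      rw [hT, mem_filter, mem_range]
      exact ⟨by omega, hl⟩
    have hdvd : l ∣ primorial M := by
      rw [hQ]
      exact Finset.dvd_prod_of_mem _ hlT
    exact (hp.of_dvd hdvd).trans (hA l hlT)

/-- the residues of `p` modulo the prime divisors of `q` are those prescribed by `a` -/
def InClass (a : ℕ → ℕ) (q p : ℕ) : Prop := ∀ l : ℕ, l.Prime → l ∣ q → p ≡ a l [MOD l]

/-- at the scale `F`, up to the distance `R F`, the primes near `n` look like the set of the `n + F V i` -/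
def Shape {k : ℕ} (V : Fin k → ℝ) (R δ : ℝ) (a : ℕ → ℕ) (q : ℕ) (F : ℝ) (n : ℕ) : Prop :=
  (∀ p : ℕ, p.Prime → |(p : ℝ) - n| ≤ R * F → InClass a q p ∧ ∃ i, |((p : ℝ) - n) / F - V i| ≤ δ) ∧
  (∀ i, ∃ p : ℕ, p.Prime ∧ InClass a q p ∧ |((p : ℝ) - n) / F - V i| ≤ δ)

/-- a constant multiple of the scale is admissible infinitely often -/
theorem freq_scale (H : ℝ → ℝ) (hH : ∀ᶠ X : ℝ in atTop, Real.log X ≤ H X ∧ H X ≤ ff X)
    (c0 : ℝ) (hc0 : 0 < c0) : ∃ lam : ℝ, 0 < lam ∧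
      ∃ᶠ X : ℝ in atTop, Real.log X ≤ lam * H X ∧ lam * H X ≤ c0 * ff X := by
  by_cases h : ∃ᶠ X : ℝ in atTop, Real.log X ≤ c0 * H X
  · refine ⟨c0, hc0, (h.and_eventually hH).mono ?_⟩
    rintro X ⟨h1, h2⟩
    exact ⟨h1, mul_le_mul_of_nonneg_left h2.2 hc0.le⟩
  · rw [not_frequently] at h
    refine ⟨1, one_pos, Eventually.frequently ?_⟩
    filter_upwards [h, hH, Pool.Agent.H672R3.InfRec.scale_ev (c0 * c0) (by positivity)]
      with X h1 h2 h3
    push Not at h1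
    refine ⟨by linarith [h2.1], ?_⟩
    have h4 : c0 * H X ≤ c0 * (c0 * ff X) := by
      calc c0 * H X ≤ Real.log X := h1.le
        _ ≤ c0 * c0 * ff X := h3
        _ = c0 * (c0 * ff X) := by ring
    have h5 := le_of_mul_le_mul_left h4 hc0
    linarith

theorem exact (k : ℕ) (hk : 1 ≤ k) (a : ℕ → ℕ) (ha : ∀ l : ℕ, l.Prime → ¬ l ∣ a l)
    (H : ℝ → ℝ) (hH : ∀ᶠ X : ℝ in atTop, Real.log X ≤ H X ∧ H X ≤ ff X) :
    ∃ c : ℝ, 0 < c ∧ ∀ V : Fin k → ℝ, (∀ i, |V i| ≤ c) → ∀ q : ℕ, Squarefree q → ∀ ε : ℝ, 0 < ε →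
    ∀ X₀ : ℝ, ∃ X : ℝ, X₀ ≤ X ∧ X ^ (7 / 8 : ℝ) ≤
      ({n : ℕ | X < n ∧ (n : ℝ) ≤ 4 * X ∧ Shape V c ε a q (H X) n}.ncard : ℝ) := by
  classical
  by_contra hcon
  push Not at hcon
  choose! V hV q hq ε hε X₀ hX₀ using hcon
  obtain ⟨η, hη, hmain⟩ := place_of stRQ
  obtain ⟨r, hr⟩ := exists_pow_eta k hk η hη
  have hm1 : 1 ≤ k ^ r := Nat.one_le_pow _ _ hk
  obtain ⟨c0, hc0, hmain2⟩ := hmain (k ^ r) hm1
  obtain ⟨lam, hlam, hfreq⟩ := freq_scale H hH c0 hc0
  obtain ⟨ι, hι, S, u, τ, hcard, hτ, hS, huB, huinj, htree⟩ :=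
    tree V ε hε hV r (lam / 16) (by positivity)
  set e : ι ≃ Fin (k ^ r) := Fintype.equivFinOfCardEq hcard with he
  obtain ⟨μ, hμ, hsep⟩ := exists_sep (fun d : Fin (k ^ r) => u (e.symm d))
    (huinj.comp e.symm.injective)
  obtain ⟨Q, A, hQ, hAQ, hcrt⟩ := crt a ha (∑ b ∈ S, q b)
  have hclass : ∀ b ∈ S, ∀ p : ℕ, p ≡ A [MOD Q] → InClass a (q b) p := by
    intro b hb p hp l hl hlq
    refine hcrt p hp l hl ?_
    have h1 : l ≤ q b := Nat.le_of_dvd (Nat.pos_of_ne_zero (hq b (hS b hb).1).ne_zero) hlq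
    exact h1.trans (Finset.single_le_sum (f := q) (fun _ _ => Nat.zero_le _) hb)
  -- the unit
  obtain ⟨D, hDdef⟩ : ∃ D : ℝ, D = max 1 (max (lam / (8 * τ)) (lam / (2 * μ))) := ⟨_, rfl⟩
  have hD1 : 1 ≤ D := by rw [hDdef]; exact le_max_left _ _
  have hDτ : lam / (8 * τ) ≤ D := by
    rw [hDdef]; exact (le_max_left _ _).trans (le_max_right _ _)
  have hDμ : lam / (2 * μ) ≤ D := by
    rw [hDdef]; exact (le_max_right _ _).trans (le_max_right _ _)
  have hD0 : 0 < D := by linarith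
  have hDτ' : lam ≤ 8 * D * τ := by
    rw [div_le_iff₀ (by positivity)] at hDτ
    linarith
  have hDμ' : lam ≤ 2 * D * μ := by
    rw [div_le_iff₀ (by positivity)] at hDμ
    linarith
  have hmain3 := hmain2 (fun d => u (e.symm d) * (8 * D / lam)) D 1 hD1 le_rfl
    (fun d => by
      rw [abs_mul, abs_of_pos (show 0 < 8 * D / lam by positivity)]
      calc |u (e.symm d)| * (8 * D / lam) ≤ lam / 16 * (8 * D / lam) :=
            mul_le_mul_of_nonneg_right (huB _) (by positivity)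
        _ = D / 2 := by field_simp; ring
        _ ≤ D := by linarith)
    (fun d d' hne => by
      have h1 := hsep d d' hne
      rw [← sub_mul, abs_mul, abs_of_pos (show 0 < 8 * D / lam by positivity)]
      calc (2 : ℝ) < 4 := by norm_num
        _ ≤ μ * (8 * D / lam) := by
            rw [mul_div_assoc', le_div_iff₀ hlam]
            linarith
        _ ≤ _ := mul_le_mul_of_nonneg_right h1 (by positivity)) Q A hQ hAQ
  obtain ⟨X1, hX1⟩ := hmain3
  obtain ⟨c2, hc2def⟩ : ∃ c2 : ℝ, c2 = ((S.card : ℝ) + 1) * (c0 + 1) := ⟨_, rfl⟩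
  have hc2 : 0 < c2 := by rw [hc2def]; positivity
  have hHt : Tendsto H atTop atTop :=
    tendsto_atTop_mono' _ (hH.mono fun X h => h.1) Real.tendsto_log_atTop
  have hevS : ∀ᶠ X : ℝ in atTop, ∀ b ∈ S, X₀ b ≤ X ∧ 1 / b ≤ H X ∧ 2 / ε b ≤ H X := by
    rw [Filter.eventually_all_finset]
    intro b _
    filter_upwards [eventually_ge_atTop (X₀ b), hHt.eventually_ge_atTop (1 / b),
      hHt.eventually_ge_atTop (2 / ε b)] with X h1 h2 h3
    exact ⟨h1, h2, h3⟩
  obtain ⟨X, ⟨hscale, hscale2⟩, hXX1, hXS, hbadX, hsmall, hX1', hff1, hH1⟩ :=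
    (hfreq.and_eventually ((eventually_ge_atTop X1).and (hevS.and ((ev_bad c2 hc2).and
      ((ff_small (c0 + 1) (by linarith)).and ((eventually_ge_atTop (1 : ℝ)).and
        ((ff_tendsto.eventually_ge_atTop 1).and (hHt.eventually_gt_atTop 0)))))))).exists
  obtain ⟨F, hFdef⟩ : ∃ F : ℝ, F = lam * H X := ⟨_, rfl⟩
  have hFff : F ≤ c0 * ff X := by rw [hFdef]; exact hscale2
  have hFpos : 0 < F := by rw [hFdef]; positivity
  have hFX : F ≤ X := by
    have : (c0 + 1) * ff X = c0 * ff X + ff X := by ring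
    linarith
  -- the good integers
  set Good : ℝ → Set ℕ := fun b =>
    {n : ℕ | X < n ∧ (n : ℝ) ≤ 4 * X ∧ Shape (V b) b (ε b) a (q b) (H X) n} with hGood
  have hfinG : ∀ b, (Good b).Finite := by
    intro b
    apply (Set.finite_Iic ⌊4 * X⌋₊).subset
    intro n hn
    rw [Set.mem_Iic]
    exact Nat.le_floor hn.2.1
  have hG0card : ∀ b ∈ S, ((hfinG b).toFinset.card : ℝ) ≤ X ^ (7 / 8 : ℝ) := by
    intro b hb
    have h1 := hX₀ b (hS b hb).1 X (hXS b hb).1
    rw [← Set.ncard_eq_toFinset_card (Good b) (hfinG b)]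
    exact h1.le
  set bad : Finset ℕ := S.biUnion (fun b => (hfinG b).toFinset.biUnion (fun g => Icc (g - ⌊F⌋₊) g))
    with hbaddef
  have hbadcard : (bad.card : ℝ) ≤ X ^ (9 / 10 : ℝ) := by
    have h0 : ∀ b ∈ S, (((hfinG b).toFinset.biUnion (fun g => Icc (g - ⌊F⌋₊) g)).card : ℝ) ≤
        X ^ (7 / 8 : ℝ) * (F + 1) := by
      intro b hb
      have h1 : ((hfinG b).toFinset.biUnion (fun g => Icc (g - ⌊F⌋₊) g)).card ≤
          (hfinG b).toFinset.card * (⌊F⌋₊ + 1) := by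
        refine Finset.card_biUnion_le.trans ?_
        have h2 : ∀ g ∈ (hfinG b).toFinset, (Icc (g - ⌊F⌋₊) g).card ≤ ⌊F⌋₊ + 1 := by
          intro g _
          rw [Nat.card_Icc]
          omega
        exact (Finset.sum_le_card_nsmul _ _ _ h2).trans (le_of_eq (by rw [smul_eq_mul]))
      have h3 : ((⌊F⌋₊ + 1 : ℕ) : ℝ) ≤ F + 1 := by
        push_cast
        have := Nat.floor_le hFpos.le
        linarith
      calc (((hfinG b).toFinset.biUnion (fun g => Icc (g - ⌊F⌋₊) g)).card : ℝ)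
          ≤ (((hfinG b).toFinset.card * (⌊F⌋₊ + 1) : ℕ) : ℝ) := by exact_mod_cast h1
        _ = ((hfinG b).toFinset.card : ℝ) * ((⌊F⌋₊ + 1 : ℕ) : ℝ) := by push_cast; ring
        _ ≤ X ^ (7 / 8 : ℝ) * (F + 1) := by
            apply mul_le_mul (hG0card b hb) h3 (Nat.cast_nonneg _) (Real.rpow_nonneg (by linarith) _)
    have h1 : (bad.card : ℝ) ≤ ∑ b ∈ S,
        (((hfinG b).toFinset.biUnion (fun g => Icc (g - ⌊F⌋₊) g)).card : ℝ) := by
      exact_mod_cast (Finset.card_biUnion_le (s := S)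
        (t := fun b => (hfinG b).toFinset.biUnion (fun g => Icc (g - ⌊F⌋₊) g)))
    have h2 : ∑ b ∈ S, (((hfinG b).toFinset.biUnion (fun g => Icc (g - ⌊F⌋₊) g)).card : ℝ) ≤
        S.card • (X ^ (7 / 8 : ℝ) * (F + 1)) := Finset.sum_le_card_nsmul _ _ _ h0
    rw [nsmul_eq_mul] at h2
    have h3 : (S.card : ℝ) * (F + 1) ≤ c2 * ff X + 1 := by
      rw [hc2def]
      have h4 : (0 : ℝ) ≤ S.card := Nat.cast_nonneg _
      have h5 : F + 1 ≤ (c0 + 1) * ff X := by
        have : (c0 + 1) * ff X = c0 * ff X + ff X := by ring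
        linarith
      have h6 : 0 ≤ F + 1 := by positivity
      calc (S.card : ℝ) * (F + 1) ≤ ((S.card : ℝ) + 1) * ((c0 + 1) * ff X) :=
            mul_le_mul (by linarith) h5 h6 (by linarith)
        _ = ((S.card : ℝ) + 1) * (c0 + 1) * ff X := by ring
        _ ≤ _ := by linarith
    have h7 : (S.card : ℝ) * (X ^ (7 / 8 : ℝ) * (F + 1)) = X ^ (7 / 8 : ℝ) * ((S.card : ℝ) * (F + 1)) := by
      ring
    rw [h7] at h2
    exact (h1.trans h2).trans ((mul_le_mul_of_nonneg_left h3 (Real.rpow_nonneg (by linarith) _)).trans hbadX)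
  obtain ⟨n, hn1, hn2, hnbad, ⟨G, hG1, hG2⟩, hex⟩ := hX1 X hXX1 F (by rw [hFdef]; exact hscale)
    hFff bad hbadcard
  -- the unit of the placement
  have hunit : F / (8 * D * 1) = lam / (8 * D) * H X := by rw [hFdef]; ring
  have hunit0 : 0 < lam / (8 * D) := by positivity
  have hconv : ∀ (s : ℕ) (d : Fin (k ^ r)),
      |((s : ℝ) - F / 2) / (F / (8 * D * 1)) - u (e.symm d) * (8 * D / lam)| ≤ 1 →
      |((s : ℝ) - F / 2) / H X - u (e.symm d)| ≤ τ := by
    intro s d h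
    have e1 : ((s : ℝ) - F / 2) / (F / (8 * D * 1)) - u (e.symm d) * (8 * D / lam) =
        (((s : ℝ) - F / 2) / H X - u (e.symm d)) * (8 * D / lam) := by
      rw [hunit]; field_simp
    rw [e1, abs_mul, abs_of_pos (show 0 < 8 * D / lam by positivity)] at h
    have h1 : 1 / τ ≤ 8 * D / lam := by
      rw [div_le_div_iff₀ hτ hlam]
      linarith
    have h2 : |((s : ℝ) - F / 2) / H X - u (e.symm d)| * (1 / τ) ≤ 1 :=
      (mul_le_mul_of_nonneg_left h1 (abs_nonneg _)).trans h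
    rw [mul_one_div, div_le_one hτ] at h2
    exact h2
  set P : Set ℝ := {p : ℝ | ∃ s : ℕ, (n + s).Prime ∧ (s : ℝ) ≤ F ∧ p = ((s : ℝ) - F / 2) / H X} with hP
  have hleF : ∀ (s : ℕ) (d : Fin (k ^ r)),
      |((s : ℝ) - F / 2) / (F / (8 * D * 1)) - u (e.symm d) * (8 * D / lam)| ≤ 1 → (s : ℝ) ≤ F := by
    intro s d h
    rw [hunit] at h
    have h1 := (abs_le.1 h).2
    have h2 : u (e.symm d) * (8 * D / lam) ≤ D / 2 := by
      calc u (e.symm d) * (8 * D / lam) ≤ lam / 16 * (8 * D / lam) :=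
            mul_le_mul_of_nonneg_right ((le_abs_self _).trans (huB _)) (by positivity)
        _ = D / 2 := by field_simp; ring
    have h3 : ((s : ℝ) - F / 2) / (lam / (8 * D) * H X) ≤ 2 * D := by linarith
    rw [div_le_iff₀ (by positivity)] at h3
    have h4 : 2 * D * (lam / (8 * D) * H X) = F / 4 := by rw [hFdef]; field_simp; ring
    linarith
  obtain ⟨b, hb, v, hvB, hL1, hL2⟩ := htree P (by
    rintro p ⟨s, hs1, hs2, rfl⟩
    obtain ⟨_, d, hd⟩ := hex s hs2 hs1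
    exact ⟨e.symm d, hconv s d hd⟩) (G.map e.symm.toEmbedding) (by
    intro g hg
    rw [Finset.mem_map] at hg
    obtain ⟨d, hd, rfl⟩ := hg
    obtain ⟨s, hs, hsd⟩ := hG2 d hd
    exact ⟨((s : ℝ) - F / 2) / H X, ⟨s, hs, hleF s d hsd, rfl⟩, hconv s d hsd⟩) (by
    rw [Finset.card_map]
    have h1 : (((k - 1) ^ r : ℕ) : ℝ) < (G.card : ℝ) := by
      push_cast
      refine lt_of_lt_of_le hr ?_
      calc η * (k : ℝ) ^ r = η * ((k ^ r : ℕ) : ℝ) := by push_cast; ring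
        _ ≤ _ := hG1
    exact_mod_cast h1)
  obtain ⟨hb0, hbB⟩ := hS b hb
  obtain ⟨_, hbH, hεH⟩ := hXS b hb
  have hεb := hε b hb0
  have hbH' : 1 ≤ b * H X := by
    rw [div_le_iff₀ hb0] at hbH
    linarith
  have hεH' : 1 / H X ≤ ε b / 2 := by
    rw [div_le_iff₀ hH1]
    rw [div_le_iff₀ hεb] at hεH
    linarith
  have hv' := abs_le.1 hvB
  have hFF : F = lam * H X := hFdef
  have hbF : b * H X ≤ F / 16 := by
    rw [hFdef]
    have := mul_le_mul_of_nonneg_right hbB hH1.le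
    linarith
  have hvF1 : v * H X ≤ F / 16 := by
    rw [hFdef]
    have := mul_le_mul_of_nonneg_right hv'.2 hH1.le
    linarith
  have hvF2 : -(F / 16) ≤ v * H X := by
    rw [hFdef]
    have := mul_le_mul_of_nonneg_right hv'.1 hH1.le
    linarith
  obtain ⟨z, hz⟩ : ∃ z : ℝ, z = F / 2 + H X * v := ⟨_, rfl⟩
  have hznn : 0 ≤ z := by rw [hz]; linarith
  set w : ℕ := ⌊z⌋₊ with hw
  have hw1 : (w : ℝ) ≤ z := Nat.floor_le hznn
  have hw2 : z < w + 1 := Nat.lt_floor_add_one z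
  have hzF : z ≤ F := by rw [hz]; linarith
  have hround : ∀ (s : ℕ) (y : ℝ), |((s : ℝ) - F / 2) / H X - (v + y)| ≤ ε b / 2 →
      |(((n + s : ℕ) : ℝ) - ((n + w : ℕ) : ℝ)) / H X - y| ≤ ε b := by
    intro s y h
    have e1 : (((n + s : ℕ) : ℝ) - ((n + w : ℕ) : ℝ)) / H X - y =
        (((s : ℝ) - F / 2) / H X - (v + y)) + (z - w) / H X := by
      rw [hz]; push_cast; field_simp; ring
    have h1 : 0 ≤ (z - w) / H X := div_nonneg (by linarith) hH1.le
    have h2 : (z - w) / H X ≤ 1 / H X := div_le_div_of_nonneg_right (by linarith) hH1.le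
    rw [e1]
    have h3 := abs_le.1 h
    rw [abs_le]
    constructor <;> linarith [h3.1, h3.2]
  have hmem : n + w ∈ Good b := by
    refine ⟨?_, ?_, ?_, ?_⟩
    · push_cast
      have : (0 : ℝ) ≤ w := Nat.cast_nonneg _
      linarith
    · push_cast
      linarith
    · intro p hp hpn
      push_cast at hpn
      have hpn' := abs_le.1 hpn
      have hpge : (n : ℝ) ≤ p := by
        have : F / 4 ≤ z := by rw [hz]; linarith
        linarith [hpn'.1]
      obtain ⟨s, rfl⟩ : ∃ s, p = n + s := ⟨p - n, by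
        have : n ≤ p := by exact_mod_cast hpge
        omega⟩
      push_cast at hpn'
      have hsF : (s : ℝ) ≤ F := by linarith [hpn'.2]
      refine ⟨hclass b hb _ (hex s hsF hp).1, ?_⟩
      obtain ⟨i, hi⟩ := hL1 (((s : ℝ) - F / 2) / H X) ⟨s, hp, hsF, rfl⟩ (by
        have e1 : ((s : ℝ) - F / 2) / H X - v = ((s : ℝ) - z) / H X := by
          rw [hz]; field_simp; ring
        rw [e1, abs_div, abs_of_pos hH1, div_le_iff₀ hH1, abs_le]
        constructor <;> linarith [hpn'.1, hpn'.2])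
      exact ⟨i, hround s _ hi⟩
    · intro i
      obtain ⟨p, ⟨s, hs1, hs2, rfl⟩, hp⟩ := hL2 i
      exact ⟨n + s, hs1, hclass b hb _ (hex s hs2 hs1).1, hround s _ hp⟩
  apply hnbad
  rw [hbaddef, Finset.mem_biUnion]
  refine ⟨b, hb, ?_⟩
  rw [Finset.mem_biUnion]
  refine ⟨n + w, ?_, ?_⟩
  · rw [Set.Finite.mem_toFinset]
    exact hmem
  · rw [Finset.mem_Icc]
    have h1 : w ≤ ⌊F⌋₊ := Nat.floor_le_floor hzF
    omega

end Pool.Agent.W199.ExMain
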