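import Mathlib

set_option autoImplicit false

/-! Topology behind the limit points of prime gaps: from the `K`-tuple property to intervals and open sets. -/

open Filter Topology Set

namespace Pool.Agent.W199.LPTop

/-- the successive differences of `β` along `j` -/
def D {K m : ℕ} (j : Fin (m + 1) → Fin K) (β : Fin K → ℝ) : Fin m → ℝ :=
  fun i => β (j i.succ) - β (j i.castSucc)

/-- `D j` as a linear map -/
def Dl {K m : ℕ} (j : Fin (m + 1) → Fin K) : (Fin K → ℝ) →ₗ[ℝ] (Fin m → ℝ) where
  toFun := D j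
  map_add' x y := by
    funext i
    simp only [D, Pi.add_apply]
    ring
  map_smul' r x := by
    funext i
    simp only [D, Pi.smul_apply, smul_eq_mul, RingHom.id_apply]
    ring

theorem Dl_surj {K m : ℕ} (j : Fin (m + 1) → Fin K) (hj : StrictMono j) :
    Function.Surjective (Dl j) := by
  intro w
  refine ⟨Function.extend j (Fin.partialSum w) 0, ?_⟩
  funext i
  show Function.extend j (Fin.partialSum w) 0 (j i.succ) -
    Function.extend j (Fin.partialSum w) 0 (j i.castSucc) = w i
  rw [hj.injective.extend_apply, hj.injective.extend_apply, Fin.partialSum_succ]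
  ring

theorem D_open {K m : ℕ} (j : Fin (m + 1) → Fin K) (hj : StrictMono j) : IsOpenMap (D j) :=
  LinearMap.isOpenMap_of_finiteDimensional (Dl j) (Dl_surj j hj)

theorem D_cont {K m : ℕ} (j : Fin (m + 1) → Fin K) : Continuous (D j) := by
  unfold D
  fun_prop

theorem strictMono_open (K : ℕ) : IsOpen {β : Fin K → ℝ | StrictMono β} := by
  have h : {β : Fin K → ℝ | StrictMono β} =
      ⋂ i : Fin K, ⋂ j : Fin K, {β : Fin K → ℝ | i < j → β i < β j} := by
    ext β
    simp only [mem_ofPred_eq, mem_iInter]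
    exact ⟨fun h i j hij => h hij, fun h i j hij => h i j hij⟩
  rw [h]
  refine isOpen_iInter_of_finite fun i => isOpen_iInter_of_finite fun j => ?_
  by_cases hij : i < j
  · simp only [hij, true_implies]
    exact isOpen_lt (continuous_apply i) (continuous_apply j)
  · simp [hij]

/-- The `K`-tuple property passes to the closure of the interior. -/
theorem closure_interior {K m : ℕ} {c : ℝ}
    (L : (Fin (m + 1) → Fin K) → Set (Fin m → ℝ))
    (h : ∀ β : Fin K → ℝ, StrictMono β → (∀ i, 0 < β i ∧ β i ≤ c) →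
      ∃ j : Fin (m + 1) → Fin K, StrictMono j ∧ D j β ∈ L j)
    (hL : ∀ j, IsClosed (L j))
    (β : Fin K → ℝ) (hβ : StrictMono β) (hβc : ∀ i, 0 < β i ∧ β i ≤ c) :
    ∃ j : Fin (m + 1) → Fin K, StrictMono j ∧ D j β ∈ closure (interior (L j)) := by
  classical
  by_contra hcon
  push Not at hcon
  set V : Set (Fin K → ℝ) := {γ | StrictMono γ} ∩ (⋂ i, {γ | 0 < γ i}) ∩
    (⋂ j : Fin (m + 1) → Fin K, {γ | StrictMono j → D j γ ∉ closure (interior (L j))}) with hV
  have hVo : IsOpen V := by
    refine ((strictMono_open K).inter (isOpen_iInter_of_finite fun i => ?_)).inter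
      (isOpen_iInter_of_finite fun j => ?_)
    · exact isOpen_lt continuous_const (continuous_apply i)
    · by_cases hj : StrictMono j
      · simp only [hj, true_implies]
        exact (isClosed_closure.isOpen_compl).preimage (D_cont j)
      · simp [hj]
  have hβV : β ∈ V := by
    refine ⟨⟨hβ, ?_⟩, ?_⟩
    · simp only [mem_iInter, mem_ofPred_eq]
      exact fun i => (hβc i).1
    · simp only [mem_iInter, mem_ofPred_eq]
      exact fun j hj => hcon j hj
  -- shrink
  have hlim : Tendsto (fun s : ℝ => (1 - s) • β) (𝓝[>] 0) (𝓝 β) := by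
    have h1 : Tendsto (fun s : ℝ => (1 - s) • β) (𝓝 0) (𝓝 ((1 - (0 : ℝ)) • β)) := by
      apply Continuous.tendsto
      fun_prop
    simp only [sub_zero, one_smul] at h1
    exact h1.mono_left nhdsWithin_le_nhds
  have hev := hlim.eventually (hVo.mem_nhds hβV)
  obtain ⟨s, hs1, hs2⟩ := (hev.and self_mem_nhdsWithin).exists
  have hs2 : 0 < s := hs2
  set V' : Set (Fin K → ℝ) := V ∩ ⋂ i, {γ | γ i < c} with hV'
  have hV'o : IsOpen V' := hVo.inter (isOpen_iInter_of_finite fun i =>
    isOpen_lt (continuous_apply i) continuous_const)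
  have hne : ((1 - s) • β) ∈ V' := by
    refine ⟨hs1, ?_⟩
    simp only [mem_iInter, mem_ofPred_eq]
    intro i
    simp only [Pi.smul_apply, smul_eq_mul]
    have := hβc i
    nlinarith
  have key : ∀ S : Finset (Fin (m + 1) → Fin K), (∀ j ∈ S, StrictMono j) →
      ∃ O : Set (Fin K → ℝ), IsOpen O ∧ O.Nonempty ∧ O ⊆ V' ∧ ∀ j ∈ S, ∀ γ ∈ O, D j γ ∉ L j := by
    intro S
    induction S using Finset.induction_on with
    | empty => exact fun _ => ⟨V', hV'o, ⟨_, hne⟩, subset_rfl, by simp⟩
    | insert j S hjS ih =>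
      intro hS
      obtain ⟨O, hO, hOne, hOV, hOS⟩ := ih fun j hj => hS j (Finset.mem_insert_of_mem hj)
      have hj := hS j (Finset.mem_insert_self j S)
      obtain ⟨γ, hγO, hγ⟩ : ∃ γ ∈ O, D j γ ∉ L j := by
        by_contra hno
        push Not at hno
        have h1 : D j '' O ⊆ interior (L j) := by
          apply interior_maximal
          · rintro _ ⟨γ, hγ, rfl⟩
            exact hno γ hγ
          · exact D_open j hj O hO
        obtain ⟨γ, hγ⟩ := hOne
        have h2 := (hOV hγ).1.2
        simp only [mem_iInter, mem_ofPred_eq] at h2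
        exact h2 j hj (subset_closure (h1 ⟨γ, hγ, rfl⟩))
      refine ⟨O ∩ D j ⁻¹' (L j)ᶜ, hO.inter ((hL j).isOpen_compl.preimage (D_cont j)),
        ⟨γ, hγO, hγ⟩, inter_subset_left.trans hOV, ?_⟩
      intro j' hj' γ' hγ'
      rw [Finset.mem_insert] at hj'
      rcases hj' with rfl | hj'
      · exact hγ'.2
      · exact hOS j' hj' γ' hγ'.1
  obtain ⟨O, hO, ⟨γ, hγ⟩, hOV, hOS⟩ := key (Finset.univ.filter StrictMono) (fun j hj => by
    simpa using hj)
  have h3 := hOV hγ
  have h4 := h3.1.1.2
  have h5 := h3.2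
  simp only [mem_iInter, mem_ofPred_eq] at h4 h5
  obtain ⟨j, hj, hjL⟩ := h γ h3.1.1.1 fun i => ⟨h4 i, (h5 i).le⟩
  exact hOS j (by simpa using hj) γ hγ hjL

/-- The interval lemma: a closed set which contains a difference of every rapidly shrinking `K`-tuple
contains an interval `[0, c']`. -/
theorem interval {K : ℕ} {c ε : ℝ} (hc : 0 < c) (hε : 0 < ε) (E : Set ℝ) (hE : IsClosed E)
    (h : ∀ β : Fin K → ℝ, StrictMono β → (∀ i, 0 < β i ∧ β i ≤ c) →
      (∀ i j k, i < j → j < k → β k - β j ≤ ε * (β j - β i)) → ∃ i j, i < j ∧ β j - β i ∈ E) :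
    ∃ c' : ℝ, 0 < c' ∧ Icc 0 c' ⊆ E := by
  by_contra hcon
  push Not at hcon
  have h1 : ∀ b : ℝ, 0 < b → ∃ x δ : ℝ, 0 < x ∧ x ≤ b ∧ 0 < δ ∧ ∀ y, x ≤ y → y ≤ x + δ → y ∉ E := by
    intro b hb
    obtain ⟨x, hx, hxE⟩ := Set.not_subset.1 (hcon b hb)
    obtain ⟨r, hr, hball⟩ := Metric.isOpen_iff.1 hE.isOpen_compl x hxE
    by_cases hx0 : x = 0
    · refine ⟨min b (r / 4), r / 4, by positivity, min_le_left _ _, by positivity, ?_⟩
      intro y hy1 hy2
      have h2 : y ∈ Metric.ball x r := by
        rw [Metric.mem_ball, Real.dist_eq, hx0, sub_zero, abs_lt]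
        have := min_le_right b (r / 4)
        have : 0 < min b (r / 4) := by positivity
        constructor <;> linarith
      exact hball h2
    · refine ⟨x, r / 2, lt_of_le_of_ne hx.1 (Ne.symm hx0), hx.2, by positivity, ?_⟩
      intro y hy1 hy2
      have h2 : y ∈ Metric.ball x r := by
        rw [Metric.mem_ball, Real.dist_eq, abs_lt]
        constructor <;> linarith
      exact hball h2
  choose! X Δ hX0 hXb hΔ0 hXΔ using h1
  -- the scales
  let B : ℕ → ℝ := fun t => Nat.rec (c / 2) (fun _ b => min b (min (Δ b) (ε * X b)) / 4) t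
  have hB0 : B 0 = c / 2 := rfl
  have hBs : ∀ t, B (t + 1) = min (B t) (min (Δ (B t)) (ε * X (B t))) / 4 := fun t => rfl
  have hBpos : ∀ t, 0 < B t := by
    intro t
    induction t with
    | zero => rw [hB0]; positivity
    | succ t ih =>
      rw [hBs]
      have h2 := hX0 _ ih
      have h3 := hΔ0 _ ih
      positivity
  have hBB : ∀ t, B (t + 1) ≤ B t / 4 := by
    intro t
    rw [hBs]
    have := min_le_left (B t) (min (Δ (B t)) (ε * X (B t)))
    linarith
  have hBΔ : ∀ t, B (t + 1) ≤ Δ (B t) / 4 := by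
    intro t
    rw [hBs]
    have := (min_le_right (B t) (min (Δ (B t)) (ε * X (B t)))).trans (min_le_left _ _)
    linarith
  have hBX : ∀ t, B (t + 1) ≤ ε * X (B t) / 4 := by
    intro t
    rw [hBs]
    have := (min_le_right (B t) (min (Δ (B t)) (ε * X (B t)))).trans (min_le_right _ _)
    linarith
  set x : ℕ → ℝ := fun t => X (B t) with hx
  have hx0 : ∀ t, 0 < x t := fun t => hX0 _ (hBpos t)
  have hxB : ∀ t, x t ≤ B t := fun t => hXb _ (hBpos t)
  set σ : ℕ → ℝ := fun t => ∑ s ∈ Finset.range t, x s with hσ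
  have hσs : ∀ t, σ (t + 1) = σ t + x t := fun t => Finset.sum_range_succ _ _
  have htail : ∀ t n, σ (t + n) - σ t ≤ 4 / 3 * (B t - B (t + n)) := by
    intro t n
    induction n with
    | zero => simp
    | succ n ih =>
      rw [← add_assoc, hσs]
      have h2 := hBB (t + n)
      have h3 := hxB (t + n)
      have h4 := hBpos (t + n)
      linarith
  have htail' : ∀ t u, t ≤ u → σ u - σ t ≤ 4 / 3 * B t := by
    intro t u htu
    obtain ⟨n, rfl⟩ := Nat.exists_eq_add_of_le htu
    have h2 := htail t n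
    have h3 := hBpos (t + n)
    linarith
  have hmono : ∀ t u, t < u → σ t < σ u := by
    intro t u htu
    have h2 : StrictMono σ := strictMono_nat_of_lt_succ fun n => by rw [hσs]; linarith [hx0 n]
    exact h2 htu
  obtain ⟨i, j, hij, hE2⟩ := h (fun i => σ (i + 1)) (fun i j hij => hmono _ _ (by
    have : (i : ℕ) < j := hij
    omega)) (fun i => by
      constructor
      · have h2 := hmono 0 (i + 1) (by omega)
        simpa [hσ] using h2
      · have h2 := htail' 0 (i + 1) (by omega)
        have h3 : σ 0 = 0 := by simp [hσ]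
        rw [h3, hB0] at h2
        linarith) (by
      intro i j k hij hjk
      have hij' : (i : ℕ) < j := hij
      have hjk' : (j : ℕ) < k := hjk
      have h2 := htail' (j + 1) (k + 1) (by omega)
      have h3 := hBX j
      have h4 : σ (i + 1) ≤ σ j := by
        rcases Nat.lt_or_ge (i + 1) j with h5 | h5
        · exact (hmono _ _ h5).le
        · rw [show (i : ℕ) + 1 = j by omega]
      have h5 := hσs j
      have h6 : ε * x j ≤ ε * (σ (j + 1) - σ (i + 1)) :=
        mul_le_mul_of_nonneg_left (by linarith) hε.le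
      have h7 : 0 < ε * x j := mul_pos hε (hx0 j)
      have h8 : B (j + 1) ≤ ε * x j / 4 := h3
      linarith)
  have hij' : (i : ℕ) < j := hij
  refine hXΔ (B ((i : ℕ) + 1)) (hBpos ((i : ℕ) + 1)) _ ?_ ?_ hE2
  · have h2 := hσs (i + 1)
    have h3 : σ (i + 1 + 1) ≤ σ (j + 1) := by
      rcases Nat.lt_or_ge (i + 1 + 1) (j + 1) with h5 | h5
      · exact (hmono _ _ h5).le
      · rw [show (i : ℕ) + 1 + 1 = j + 1 by omega]
    show x (i + 1) ≤ _
    linarith
  · have h2 := hσs (i + 1)
    have h3 := htail' (i + 1 + 1) (j + 1) (by omega)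
    have h4 := hBΔ (i + 1)
    have h5 := hΔ0 _ (hBpos (i + 1))
    show _ ≤ x (i + 1) + _
    linarith

/-- The interval lemma for rapidly growing `K`-tuples. -/
theorem interval' {K : ℕ} {c ε : ℝ} (hc : 0 < c) (hε : 0 < ε) (E : Set ℝ) (hE : IsClosed E)
    (h : ∀ β : Fin K → ℝ, StrictMono β → (∀ i, 0 < β i ∧ β i ≤ c) →
      (∀ i j k, i < j → j < k → β j - β i ≤ ε * (β k - β j)) → ∃ i j, i < j ∧ β j - β i ∈ E) :
    ∃ c' : ℝ, 0 < c' ∧ Icc 0 c' ⊆ E := by
  refine interval (K := K) (c := c / 2) (ε := ε) (by positivity) hε E hE ?_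
  intro β hβ hβc hβε
  obtain ⟨i, j, hij, hE2⟩ := h (fun i => c - β i.rev) (fun i j hij => by
    have := hβ (Fin.rev_lt_rev.2 hij)
    simp only
    linarith) (fun i => by
      have := hβc i.rev
      constructor <;> linarith) (fun i j k hij hjk => by
        have := hβε _ _ _ (Fin.rev_lt_rev.2 hjk) (Fin.rev_lt_rev.2 hij)
        have e1 : c - β j.rev - (c - β i.rev) = β i.rev - β j.rev := by ring
        have e2 : c - β k.rev - (c - β j.rev) = β j.rev - β k.rev := by ring
        simp only [e1, e2]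
        exact this)
  refine ⟨j.rev, i.rev, Fin.rev_lt_rev.2 hij, ?_⟩
  convert hE2 using 1
  ring

end Pool.Agent.W199.LPTop
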