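import Pool.Agent.H672R3.InfRec
import Pool.Agent.W199.LPTop

set_option autoImplicit false

/-! Limit points of prime gaps at the record scale: intervals and open sets. -/

open Filter Topology Set

namespace Pool.Agent.W199.LPMain

open Pool.Agent.H256R2.SC (ff)
open Pool.Agent.H312R2.RG.C3 (ff_tendsto)
open Pool.Agent.H672R3.InfRec (Lim lp exists_min_pos)
open Pool.Agent.W199.LPTop

theorem isClosed_Lim (m q : ℕ) (a : Fin (m + 1) → ℕ) : IsClosed (Lim m q a) := by
  rw [← isOpen_compl_iff, Metric.isOpen_iff]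
  intro v hv
  have hv' : ∃ ε : ℝ, 0 < ε ∧ ∀ᶠ n : ℕ in atTop,
      ¬ ((∀ i : Fin (m + 1), Nat.nth Nat.Prime (n + i) ≡ a i [MOD q]) ∧
      ∀ i : Fin m, |((Nat.nth Nat.Prime (n + i + 1) : ℝ) - Nat.nth Nat.Prime (n + i)) /
        ff (Nat.nth Nat.Prime n) - v i| < ε) := by
    by_contra hcon
    push Not at hcon
    apply hv
    intro ε hε h
    exact hcon ε hε h
  obtain ⟨ε, hε, hev⟩ := hv'
  refine ⟨ε / 2, by positivity, fun w hw => ?_⟩
  intro hwL
  have h1 := hwL (ε / 2) (by positivity)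
  obtain ⟨n, hn1, hn2⟩ := (h1.and_eventually hev).exists
  apply hn2
  refine ⟨hn1.1, fun i => ?_⟩
  have h3 := hn1.2 i
  have h4 : |w i - v i| < ε / 2 := by
    have := (dist_pi_lt_iff (by positivity)).1 (Metric.mem_ball.1 hw) i
    rwa [Real.dist_eq] at this
  rw [abs_lt] at h3 h4 ⊢
  constructor <;> linarith [h3.1, h3.2, h4.1, h4.2]

theorem isClosed_lp (P : ℕ → Prop) (g : ℕ → ℝ) :
    IsClosed {x : ℝ | ∀ η : ℝ, 0 < η → ∃ᶠ n : ℕ in atTop, P n ∧ |g n - x| < η} := by
  rw [← isOpen_compl_iff, Metric.isOpen_iff]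
  intro v hv
  have hv' : ∃ ε : ℝ, 0 < ε ∧ ∀ᶠ n : ℕ in atTop, ¬ (P n ∧ |g n - v| < ε) := by
    by_contra hcon
    push Not at hcon
    apply hv
    intro ε hε h
    exact hcon ε hε h
  obtain ⟨ε, hε, hev⟩ := hv'
  refine ⟨ε / 2, by positivity, fun w hw => ?_⟩
  intro hwL
  have h1 := hwL (ε / 2) (by positivity)
  obtain ⟨n, hn1, hn2⟩ := (h1.and_eventually hev).exists
  apply hn2
  refine ⟨hn1.1, ?_⟩
  have h3 := hn1.2
  have h4 : |w - v| < ε / 2 := by
    have := Metric.mem_ball.1 hw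
    rwa [Real.dist_eq] at this
  rw [abs_lt] at h3 h4 ⊢
  constructor <;> linarith [h3.1, h3.2, h4.1, h4.2]

/-- the gap after the prime with index `n` -/
noncomputable def gap (n : ℕ) : ℝ := (Nat.nth Nat.Prime (n + 1) : ℝ) - Nat.nth Nat.Prime n

/-- the limit points of the first of `m + 1` consecutive gaps, each at most `ε` times the preceding one -/
def FirstGap (m q a : ℕ) (ε : ℝ) : Set ℝ :=
  {x | ∀ η : ℝ, 0 < η → ∃ᶠ n : ℕ in atTop,
    (∀ i : ℕ, i ≤ m + 1 → Nat.nth Nat.Prime (n + i) ≡ a [MOD q]) ∧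
    (∀ i : ℕ, i < m → gap (n + i + 1) ≤ ε * gap (n + i)) ∧
    |gap n / ff (Nat.nth Nat.Prime n) - x| < η}

/-- the limit points of the last of `m + 1` consecutive gaps, each at most `ε` times the next one -/
def LastGap (m q a : ℕ) (ε : ℝ) : Set ℝ :=
  {x | ∀ η : ℝ, 0 < η → ∃ᶠ n : ℕ in atTop,
    (∀ i : ℕ, i ≤ m + 1 → Nat.nth Nat.Prime (n + i) ≡ a [MOD q]) ∧
    (∀ i : ℕ, i < m → gap (n + i) ≤ ε * gap (n + i + 1)) ∧
    |gap (n + m) / ff (Nat.nth Nat.Prime n) - x| < η}

theorem isClosed_FirstGap (m q a : ℕ) (ε : ℝ) : IsClosed (FirstGap m q a ε) := by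
  have := isClosed_lp (fun n => (∀ i : ℕ, i ≤ m + 1 → Nat.nth Nat.Prime (n + i) ≡ a [MOD q]) ∧
    (∀ i : ℕ, i < m → gap (n + i + 1) ≤ ε * gap (n + i))) (fun n => gap n / ff (Nat.nth Nat.Prime n))
  simpa only [FirstGap, and_assoc] using this

theorem isClosed_LastGap (m q a : ℕ) (ε : ℝ) : IsClosed (LastGap m q a ε) := by
  have := isClosed_lp (fun n => (∀ i : ℕ, i ≤ m + 1 → Nat.nth Nat.Prime (n + i) ≡ a [MOD q]) ∧
    (∀ i : ℕ, i < m → gap (n + i) ≤ ε * gap (n + i + 1)))
    (fun n => gap (n + m) / ff (Nat.nth Nat.Prime n))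
  simpa only [LastGap, and_assoc] using this

theorem ff_pos_ev : ∀ᶠ n : ℕ in atTop, 0 < ff (Nat.nth Nat.Prime n) := by
  have h1 : Tendsto (fun n : ℕ => ((Nat.nth Nat.Prime n : ℕ) : ℝ)) atTop atTop :=
    tendsto_natCast_atTop_atTop.comp
      (Nat.nth_strictMono Nat.infinite_setOf_prime).tendsto_atTop
  exact (ff_tendsto.comp h1).eventually_gt_atTop 0

/-- blocks with small errors satisfy the ratio conditions -/
theorem first_of_lim (m q a : ℕ) (ε : ℝ) (hε : 0 < ε) (v : Fin (m + 1) → ℝ) (hv0 : ∀ i, 0 < v i)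
    (hvε : ∀ i : Fin m, v i.succ ≤ ε / 2 * v i.castSucc) (hv : v ∈ Lim (m + 1) q (fun _ => a)) :
    v 0 ∈ FirstGap m q a ε := by
  intro η hη
  obtain ⟨μ, hμ, hμv⟩ := exists_min_pos v hv0
  have hη' : 0 < min η (ε * μ / (4 * (1 + ε))) := by positivity
  refine ((hv _ hη').and_eventually ff_pos_ev).mono ?_
  rintro n ⟨⟨hn1, hn2⟩, hff⟩
  have hb : (1 + ε) * min η (ε * μ / (4 * (1 + ε))) ≤ ε * μ / 4 := by
    calc (1 + ε) * min η (ε * μ / (4 * (1 + ε))) ≤ (1 + ε) * (ε * μ / (4 * (1 + ε))) :=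
          mul_le_mul_of_nonneg_left (min_le_right _ _) (by positivity)
      _ = ε * μ / 4 := by field_simp
  set e := min η (ε * μ / (4 * (1 + ε))) with he
  refine ⟨fun i hi => ?_, fun i hi => ?_, ?_⟩
  · exact hn1 ⟨i, by omega⟩
  · have h1 := hn2 (Fin.succ ⟨i, hi⟩)
    have h2 := hn2 (Fin.castSucc ⟨i, hi⟩)
    have h3 := hvε ⟨i, hi⟩
    have h4 := hμv (Fin.castSucc ⟨i, hi⟩)
    simp only [Fin.val_succ, Fin.val_castSucc] at h1 h2
    rw [abs_lt] at h1 h2
    have h5 : gap (n + i + 1) / ff (Nat.nth Nat.Prime n) ≤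
        ε * (gap (n + i) / ff (Nat.nth Nat.Prime n)) := by
      have e1 : gap (n + i + 1) / ff (Nat.nth Nat.Prime n) =
          ((Nat.nth Nat.Prime (n + (i + 1) + 1) : ℝ) - Nat.nth Nat.Prime (n + (i + 1))) /
            ff (Nat.nth Nat.Prime n) := by
        unfold gap
        rw [add_assoc n i 1]
      have e2 : gap (n + i) / ff (Nat.nth Nat.Prime n) =
          ((Nat.nth Nat.Prime (n + i + 1) : ℝ) - Nat.nth Nat.Prime (n + i)) /
            ff (Nat.nth Nat.Prime n) := rfl
      rw [e1, e2]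
      have h6 := h1.2
      have h7 := h2.1
      have h8 : ε * μ ≤ ε * v (Fin.castSucc ⟨i, hi⟩) := mul_le_mul_of_nonneg_left h4 hε.le
      have h9 := mul_lt_mul_of_pos_left h7 hε
      have h10 : ε / 2 * v (Fin.castSucc ⟨i, hi⟩) = ε * v (Fin.castSucc ⟨i, hi⟩) / 2 := by ring
      have h11 : 0 < ε * μ := mul_pos hε hμ
      nlinarith
    rw [← mul_div_assoc, div_le_div_iff_of_pos_right hff] at h5
    exact h5
  · have h1 := hn2 0
    simp only [Fin.val_zero, add_zero] at h1
    exact h1.trans_le (min_le_left _ _)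

theorem last_of_lim (m q a : ℕ) (ε : ℝ) (hε : 0 < ε) (v : Fin (m + 1) → ℝ) (hv0 : ∀ i, 0 < v i)
    (hvε : ∀ i : Fin m, v i.castSucc ≤ ε / 2 * v i.succ) (hv : v ∈ Lim (m + 1) q (fun _ => a)) :
    v (Fin.last m) ∈ LastGap m q a ε := by
  intro η hη
  obtain ⟨μ, hμ, hμv⟩ := exists_min_pos v hv0
  have hη' : 0 < min η (ε * μ / (4 * (1 + ε))) := by positivity
  refine ((hv _ hη').and_eventually ff_pos_ev).mono ?_
  rintro n ⟨⟨hn1, hn2⟩, hff⟩
  have hb : (1 + ε) * min η (ε * μ / (4 * (1 + ε))) ≤ ε * μ / 4 := by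
    calc (1 + ε) * min η (ε * μ / (4 * (1 + ε))) ≤ (1 + ε) * (ε * μ / (4 * (1 + ε))) :=
          mul_le_mul_of_nonneg_left (min_le_right _ _) (by positivity)
      _ = ε * μ / 4 := by field_simp
  set e := min η (ε * μ / (4 * (1 + ε))) with he
  refine ⟨fun i hi => ?_, fun i hi => ?_, ?_⟩
  · exact hn1 ⟨i, by omega⟩
  · have h1 := hn2 (Fin.castSucc ⟨i, hi⟩)
    have h2 := hn2 (Fin.succ ⟨i, hi⟩)
    have h3 := hvε ⟨i, hi⟩
    have h4 := hμv (Fin.succ ⟨i, hi⟩)
    simp only [Fin.val_succ, Fin.val_castSucc] at h1 h2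
    rw [abs_lt] at h1 h2
    have h5 : gap (n + i) / ff (Nat.nth Nat.Prime n) ≤
        ε * (gap (n + i + 1) / ff (Nat.nth Nat.Prime n)) := by
      have e1 : gap (n + i + 1) / ff (Nat.nth Nat.Prime n) =
          ((Nat.nth Nat.Prime (n + (i + 1) + 1) : ℝ) - Nat.nth Nat.Prime (n + (i + 1))) /
            ff (Nat.nth Nat.Prime n) := by
        unfold gap
        rw [add_assoc n i 1]
      have e2 : gap (n + i) / ff (Nat.nth Nat.Prime n) =
          ((Nat.nth Nat.Prime (n + i + 1) : ℝ) - Nat.nth Nat.Prime (n + i)) /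
            ff (Nat.nth Nat.Prime n) := rfl
      rw [e1, e2]
      have h6 := h1.2
      have h7 := h2.1
      have h8 : ε * μ ≤ ε * v (Fin.succ ⟨i, hi⟩) := mul_le_mul_of_nonneg_left h4 hε.le
      have h9 := mul_lt_mul_of_pos_left h7 hε
      have h10 : ε / 2 * v (Fin.succ ⟨i, hi⟩) = ε * v (Fin.succ ⟨i, hi⟩) / 2 := by ring
      have h11 : 0 < ε * μ := mul_pos hε hμ
      nlinarith
    rw [← mul_div_assoc, div_le_div_iff_of_pos_right hff] at h5
    exact h5
  · have h1 := hn2 (Fin.last m)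
    simp only [Fin.val_last] at h1
    exact h1.trans_le (min_le_left _ _)

/-- Intervals of limit points (first gap). -/
theorem first_interval (m : ℕ) (ε : ℝ) (hε : 0 < ε) (q a : ℕ) (hq : Squarefree q) (ha : a.Coprime q) :
    ∃ c : ℝ, 0 < c ∧ Icc 0 c ⊆ FirstGap m q a ε := by
  obtain ⟨K, c, hc, h⟩ := lp (m + 1)
  refine interval (K := K) hc (show 0 < ε / 2 by positivity) _ (isClosed_FirstGap m q a ε) ?_
  intro β hβ hβc hβε
  obtain ⟨j, hj, hL⟩ := h q hq β hβ hβc (fun _ => a) (fun _ => ha)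
  have h01 : (0 : Fin (m + 1)).castSucc < (0 : Fin (m + 1)).succ := Fin.castSucc_lt_succ
  refine ⟨j (0 : Fin (m + 1)).castSucc, j (0 : Fin (m + 1)).succ, hj h01, ?_⟩
  refine first_of_lim m q a ε hε _ (fun i => ?_) (fun i => ?_) hL
  · exact sub_pos.2 (hβ (hj Fin.castSucc_lt_succ))
  · have h1 := hβε (j i.castSucc.castSucc) (j i.castSucc.succ) (j i.succ.succ)
      (hj Fin.castSucc_lt_succ) (hj (by
        rw [Fin.lt_def]
        simp))
    have e : (i.succ.castSucc : Fin (m + 2)) = i.castSucc.succ := by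
      ext
      simp
    simp only [e]
    exact h1

/-- Intervals of limit points (last gap). -/
theorem last_interval (m : ℕ) (ε : ℝ) (hε : 0 < ε) (q a : ℕ) (hq : Squarefree q) (ha : a.Coprime q) :
    ∃ c : ℝ, 0 < c ∧ Icc 0 c ⊆ LastGap m q a ε := by
  obtain ⟨K, c, hc, h⟩ := lp (m + 1)
  refine interval' (K := K) hc (show 0 < ε / 2 by positivity) _ (isClosed_LastGap m q a ε) ?_
  intro β hβ hβc hβε
  obtain ⟨j, hj, hL⟩ := h q hq β hβ hβc (fun _ => a) (fun _ => ha)
  refine ⟨j (Fin.last m).castSucc, j (Fin.last m).succ, hj Fin.castSucc_lt_succ, ?_⟩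
  refine last_of_lim m q a ε hε _ (fun i => ?_) (fun i => ?_) hL
  · exact sub_pos.2 (hβ (hj Fin.castSucc_lt_succ))
  · have h1 := hβε (j i.castSucc.castSucc) (j i.castSucc.succ) (j i.succ.succ)
      (hj Fin.castSucc_lt_succ) (hj (by
        rw [Fin.lt_def]
        simp))
    have e : (i.succ.castSucc : Fin (m + 2)) = i.castSucc.succ := by
      ext
      simp
    simp only [e]
    exact h1

/-- The coloured `K`-tuple property for the closure of the interior. -/
theorem lp_interior (m : ℕ) : ∃ K : ℕ, ∃ c : ℝ, 0 < c ∧ ∀ q : ℕ, Squarefree q →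
    ∀ β : Fin K → ℝ, StrictMono β → (∀ j, 0 < β j ∧ β j ≤ c) →
    ∀ a : Fin K → ℕ, (∀ j, (a j).Coprime q) →
    ∃ j : Fin (m + 1) → Fin K, StrictMono j ∧
      (fun i : Fin m => β (j i.succ) - β (j i.castSucc)) ∈
        closure (interior (Lim m q (fun i => a (j i)))) := by
  obtain ⟨K, c, hc, h⟩ := lp m
  refine ⟨K, c, hc, fun q hq β hβ hβc a ha => ?_⟩
  exact closure_interior (c := c) (fun j => Lim m q (fun i => a (j i)))
    (fun β hβ hβc => h q hq β hβ hβc a ha) (fun j => isClosed_Lim m q _) β hβ hβc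

theorem pow_aux (R s : ℝ) (hR : 2 ≤ R) (hs : 0 < s) (i j : ℕ) (hij : i < j) :
    (R - 1) * (s * R ^ i) ≤ s * R ^ j - s * R ^ i := by
  have h1 : R ^ (i + 1) ≤ R ^ j := pow_le_pow_right₀ (by linarith) hij
  have h2 : s * R ^ (i + 1) ≤ s * R ^ j := mul_le_mul_of_nonneg_left h1 hs.le
  have h3 : s * R ^ (i + 1) = R * (s * R ^ i) := by ring
  linarith

/-- Open sets of limit points with rapidly growing gaps. -/
theorem growing (m q a : ℕ) (hq : Squarefree q) (ha : a.Coprime q) (A T : ℝ) (hA : 0 < A) (hT : 0 < T) :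
    ∃ v ∈ interior (Lim m q (fun _ => a)), (∀ i, 0 < v i ∧ v i < T) ∧ ∀ i j, i < j → A * v i < v j := by
  obtain ⟨K, c, hc, h⟩ := lp_interior m
  set R : ℝ := A + 2 with hR
  have hR2 : 2 ≤ R := by linarith
  have hRK : 0 < R ^ K := by positivity
  set s : ℝ := min c T / R ^ K with hs
  have hs0 : 0 < s := by positivity
  have hsK : s * R ^ K = min c T := by rw [hs]; field_simp
  set β : Fin K → ℝ := fun i => s * R ^ (i : ℕ) with hβ
  have hβ0 : ∀ i, 0 < β i := fun i => by simp only [hβ]; positivity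
  have hβlt : ∀ i, β i < min c T := by
    intro i
    rw [← hsK]
    simp only [hβ]
    exact mul_lt_mul_of_pos_left (pow_lt_pow_right₀ (by linarith) i.2) hs0
  have hβd : ∀ i j, i < j → (R - 1) * β i ≤ β j - β i := fun i j hij => pow_aux R s hR2 hs0 i j hij
  have hβm : StrictMono β := by
    intro i j hij
    have h1 := hβd i j hij
    have h2 := hβ0 i
    nlinarith
  obtain ⟨j, hj, hcl⟩ := h q hq β hβm (fun i => ⟨hβ0 i, (hβlt i).le.trans (min_le_left _ _)⟩)
    (fun _ => a) (fun _ => ha)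
  set W : Set (Fin m → ℝ) := (⋂ i, {v | 0 < v i}) ∩ (⋂ i, {v | v i < T}) ∩
    (⋂ i : Fin m, ⋂ k : Fin m, {v | i < k → A * v i < v k}) with hW
  have hWo : IsOpen W := by
    refine ((isOpen_iInter_of_finite fun i => isOpen_lt continuous_const (continuous_apply i)).inter
      (isOpen_iInter_of_finite fun i => isOpen_lt (continuous_apply i) continuous_const)).inter
      (isOpen_iInter_of_finite fun i => isOpen_iInter_of_finite fun k => ?_)
    by_cases hik : i < k
    · simp only [hik, true_implies]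
      exact isOpen_lt (continuous_const.mul (continuous_apply i)) (continuous_apply k)
    · simp [hik]
  have hmem : (fun i : Fin m => β (j i.succ) - β (j i.castSucc)) ∈ W := by
    refine ⟨⟨?_, ?_⟩, ?_⟩
    · simp only [mem_iInter, mem_ofPred_eq]
      exact fun i => sub_pos.2 (hβm (hj Fin.castSucc_lt_succ))
    · simp only [mem_iInter, mem_ofPred_eq]
      intro i
      have h1 := hβlt (j i.succ)
      have h2 := hβ0 (j i.castSucc)
      have h3 := min_le_right c T
      linarith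
    · simp only [mem_iInter, mem_ofPred_eq]
      intro i k hik
      have h1 : j i.succ ≤ j k.castSucc := hj.monotone (by
        rw [Fin.le_def]
        simp
        omega)
      have h2 := hβm.monotone h1
      have h3 := hβd (j k.castSucc) (j k.succ) (hj Fin.castSucc_lt_succ)
      have h4 := hβ0 (j i.castSucc)
      have h5 := hβ0 (j i.succ)
      have h6 : R - 1 = A + 1 := by rw [hR]; ring
      rw [h6] at h3
      nlinarith
  obtain ⟨v, hvW, hvL⟩ := mem_closure_iff.1 hcl W hWo hmem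
  refine ⟨v, hvL, ?_, ?_⟩
  · have h1 := hvW.1.1
    have h2 := hvW.1.2
    simp only [mem_iInter, mem_ofPred_eq] at h1 h2
    exact fun i => ⟨h1 i, h2 i⟩
  · have h1 := hvW.2
    simp only [mem_iInter, mem_ofPred_eq] at h1
    exact h1

/-- Open sets of limit points with rapidly shrinking gaps. -/
theorem shrinking (m q a : ℕ) (hq : Squarefree q) (ha : a.Coprime q) (A T : ℝ) (hA : 0 < A) (hT : 0 < T) :
    ∃ v ∈ interior (Lim m q (fun _ => a)), (∀ i, 0 < v i ∧ v i < T) ∧ ∀ i j, i < j → A * v j < v i := by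
  obtain ⟨K, c, hc, h⟩ := lp_interior m
  set R : ℝ := A + 2 with hR
  have hR2 : 2 ≤ R := by linarith
  have hRK : 0 < R ^ K := by positivity
  set s : ℝ := min c T / R ^ K with hs
  have hs0 : 0 < s := by positivity
  have hsK : s * R ^ K = min c T := by rw [hs]; field_simp
  set γ : Fin K → ℝ := fun i => s * R ^ (i : ℕ) with hγ
  have hγ0 : ∀ i, 0 < γ i := fun i => by simp only [hγ]; positivity
  have hγlt : ∀ i, γ i < min c T := by
    intro i
    rw [← hsK]
    simp only [hγ]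
    exact mul_lt_mul_of_pos_left (pow_lt_pow_right₀ (by linarith) i.2) hs0
  have hγd : ∀ i j, i < j → (R - 1) * γ i ≤ γ j - γ i := fun i j hij => pow_aux R s hR2 hs0 i j hij
  have hγm : StrictMono γ := by
    intro i j hij
    have h1 := hγd i j hij
    have h2 := hγ0 i
    nlinarith
  set β : Fin K → ℝ := fun i => c - γ i.rev with hβ
  have hβm : StrictMono β := by
    intro i j hij
    have := hγm (Fin.rev_lt_rev.2 hij)
    simp only [hβ]
    linarith
  obtain ⟨j, hj, hcl⟩ := h q hq β hβm (fun i => by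
    have h1 := hγ0 i.rev
    have h2 := (hγlt i.rev).trans_le (min_le_left _ _)
    simp only [hβ]
    constructor <;> linarith) (fun _ => a) (fun _ => ha)
  have hcl' : (fun i : Fin m => γ (j i.castSucc).rev - γ (j i.succ).rev) ∈
      closure (interior (Lim m q (fun _ => a))) := by
    convert hcl using 1
    funext i
    simp only [hβ]
    ring
  set W : Set (Fin m → ℝ) := (⋂ i, {v | 0 < v i}) ∩ (⋂ i, {v | v i < T}) ∩
    (⋂ i : Fin m, ⋂ k : Fin m, {v | i < k → A * v k < v i}) with hW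
  have hWo : IsOpen W := by
    refine ((isOpen_iInter_of_finite fun i => isOpen_lt continuous_const (continuous_apply i)).inter
      (isOpen_iInter_of_finite fun i => isOpen_lt (continuous_apply i) continuous_const)).inter
      (isOpen_iInter_of_finite fun i => isOpen_iInter_of_finite fun k => ?_)
    by_cases hik : i < k
    · simp only [hik, true_implies]
      exact isOpen_lt (continuous_const.mul (continuous_apply k)) (continuous_apply i)
    · simp [hik]
  have hmem : (fun i : Fin m => γ (j i.castSucc).rev - γ (j i.succ).rev) ∈ W := by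
    refine ⟨⟨?_, ?_⟩, ?_⟩
    · simp only [mem_iInter, mem_ofPred_eq]
      exact fun i => sub_pos.2 (hγm (Fin.rev_lt_rev.2 (hj Fin.castSucc_lt_succ)))
    · simp only [mem_iInter, mem_ofPred_eq]
      intro i
      have h1 := hγlt (j i.castSucc).rev
      have h2 := hγ0 (j i.succ).rev
      have h3 := min_le_right c T
      linarith
    · simp only [mem_iInter, mem_ofPred_eq]
      intro i k hik
      have h1 : (j k.castSucc).rev ≤ (j i.succ).rev := Fin.rev_le_rev.2 (hj.monotone (by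
        rw [Fin.le_def]
        simp
        omega))
      have h2 := hγm.monotone h1
      have h3 := hγd (j i.succ).rev (j i.castSucc).rev (Fin.rev_lt_rev.2 (hj Fin.castSucc_lt_succ))
      have h4 := hγ0 (j k.succ).rev
      have h5 := hγ0 (j i.succ).rev
      have h6 : R - 1 = A + 1 := by rw [hR]; ring
      rw [h6] at h3
      nlinarith
  obtain ⟨v, hvW, hvL⟩ := mem_closure_iff.1 hcl' W hWo hmem
  refine ⟨v, hvL, ?_, ?_⟩
  · have h1 := hvW.1.1
    have h2 := hvW.1.2
    simp only [mem_iInter, mem_ofPred_eq] at h1 h2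
    exact fun i => ⟨h1 i, h2 i⟩
  · have h1 := hvW.2
    simp only [mem_iInter, mem_ofPred_eq] at h1
    exact h1

end Pool.Agent.W199.LPMain
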